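import Pool.Agent.Q24.EK.Main

/-!
# No uniform Erdős–Kac rate for floors of definite real quadratics

Full (negative) answer of Q1 of MP_02e1b1_nt: for every sequence tending to zero there is an
admissible triple for which the Kolmogorov distance is not of that order.
-/

open Filter Topology Asymptotics MeasureTheory ProbabilityTheory

namespace Pool.Agent.Results.MP_02e1b1_nt.NoUniformRate

/-- Number of distinct primes dividing `⌊α n² + β n + γ⌋` (zero if this integer is zero). -/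
noncomputable def om (α β γ : ℝ) (n : ℕ) : ℕ :=
  (⌊α * (n : ℝ) ^ 2 + β * n + γ⌋).natAbs.primeFactors.card

/-- `X_N(n) = (ω(⌊α n² + β n + γ⌋) - log log N) / √(log log N)`. -/
noncomputable def XN (α β γ : ℝ) (N n : ℕ) : ℝ :=
  ((om α β γ n : ℝ) - Real.log (Real.log N)) / Real.sqrt (Real.log (Real.log N))

/-- Distribution function of `X_N` when `n` is uniform on `{1, …, N}`. -/
noncomputable def distX (α β γ : ℝ) (N : ℕ) (x : ℝ) : ℝ :=
  (((Finset.Icc 1 N).filter (fun n => XN α β γ N n ≤ x)).card : ℝ) / N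

/-- Kolmogorov distance between `X_N` and a standard normal variable. -/
noncomputable def dK (α β γ : ℝ) (N : ℕ) : ℝ :=
  ⨆ x : ℝ, |distX α β γ N x - cdf (gaussianReal 0 1) x|

/-- Admissible triples: `α > 0`, `β² < 4αγ`, and `α`, `β` are not both rational. -/
def Admissible (α β γ : ℝ) : Prop :=
  0 < α ∧ β ^ 2 < 4 * α * γ ∧ (Irrational α ∨ Irrational β)

lemma distX_nonneg (α β γ : ℝ) (N : ℕ) (x : ℝ) : 0 ≤ distX α β γ N x := by
  unfold distX; positivity

lemma distX_le_one (α β γ : ℝ) (N : ℕ) (x : ℝ) : distX α β γ N x ≤ 1 := by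
  unfold distX
  refine div_le_one_of_le₀ ?_ (by positivity)
  have h := Finset.card_filter_le (Finset.Icc 1 N) (fun n => XN α β γ N n ≤ x)
  rw [Nat.card_Icc, Nat.add_sub_cancel] at h
  exact_mod_cast h

lemma le_dK (α β γ : ℝ) (N : ℕ) (x : ℝ) :
    |distX α β γ N x - cdf (gaussianReal 0 1) x| ≤ dK α β γ N := by
  refine le_ciSup (f := fun x => |distX α β γ N x - cdf (gaussianReal 0 1) x|) ⟨1, ?_⟩ x
  rintro _ ⟨z, rfl⟩
  simp only
  rw [abs_le]
  have h1 := distX_nonneg α β γ N z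
  have h2 := distX_le_one α β γ N z
  have h3 := cdf_nonneg (gaussianReal 0 1) z
  have h4 := cdf_le_one (gaussianReal 0 1) z
  constructor <;> linarith

lemma near_point (η : ℕ → ℝ) (hη : Tendsto η atTop (𝓝 0)) (A e K : ℕ) (hA : Odd A) (he : 1 ≤ e) :
    ∃ N : ℕ, K ≤ N ∧ ∃ ε : ℝ, 0 < ε ∧ ∀ α : ℝ, |α - (A : ℝ) ^ 2 / 4 ^ e| < ε →
      K * |η N| < dK α 0 (1 / 2) N := by
  classical
  set q : ℕ := 4 ^ e with hq
  have hq4 : 4 ≤ q := by
    calc 4 = 4 ^ 1 := by norm_num
      _ ≤ 4 ^ e := Nat.pow_le_pow_right (by norm_num) he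
  have hq0 : 0 < q := by omega
  have hqR : (4 : ℝ) ≤ q := by exact_mod_cast hq4
  have h2q : 2 ∣ q := (by norm_num : 2 ∣ 4).trans (dvd_pow_self 4 (by omega))
  have hA0 : 0 < A := hA.pos
  have hco : Nat.Coprime A q := by
    rw [hq, show (4 : ℕ) = 2 ^ 2 by norm_num, ← pow_mul]
    refine Nat.Coprime.pow_right _ ?_
    rw [Nat.coprime_comm]
    exact (Nat.Prime.coprime_iff_not_dvd Nat.prime_two).2 fun h => by
      rw [← even_iff_two_dvd] at h
      exact (Nat.not_even_iff_odd.2 hA) h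
  obtain ⟨b, c, hc, hbc⟩ : ∃ b c : ℕ, 1 ≤ c ∧ A * b = 1 + q * c := by
    obtain ⟨b₀, -, hb₀⟩ := Nat.exists_mul_mod_eq_one_of_coprime hco (by omega : 1 < q)
    refine ⟨b₀ + q, A * b₀ / q + A, le_add_left hA0, ?_⟩
    have h1 := Nat.div_add_mod (A * b₀) q
    rw [hb₀] at h1
    rw [mul_add, mul_add]
    linarith [mul_comm A q]
  -- a point where the normal distribution function is nearly one
  obtain ⟨T, hT⟩ : ∃ T : ℝ, 1 - 1 / (4 * q) < cdf (gaussianReal 0 1) T := by
    have h1 := tendsto_cdf_atTop (gaussianReal 0 1)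
    have h2 : (1 : ℝ) - 1 / (4 * q) < 1 := by
      have : (0 : ℝ) < 1 / (4 * q) := by positivity
      linarith
    exact (h1.eventually (lt_mem_nhds h2)).exists
  obtain ⟨N₁, hN₁⟩ : ∃ N₁ : ℕ, ∀ N, N₁ ≤ N → K * |η N| < 1 / (4 * q) := by
    have h1 : Tendsto (fun N => (K : ℝ) * |η N|) atTop (𝓝 (K * |0|)) := (hη.abs).const_mul _
    rw [abs_zero, mul_zero] at h1
    have h2 := h1.eventually (gt_mem_nhds (by positivity : (0 : ℝ) < 1 / (4 * q)))
    exact eventually_atTop.1 h2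
  obtain ⟨M, N, hN₀, hM, hN, hNM, hgood⟩ :=
    Pool.Agent.Q24.EK.many_good A q b c h2q hq0 hA0 hc T (max (max K N₁) 16)
  have hKN : K ≤ N := (le_max_left _ _).trans ((le_max_left _ _).trans hN₀)
  have hN1N : N₁ ≤ N := (le_max_right _ _).trans ((le_max_left _ _).trans hN₀)
  have h16 : 16 ≤ N := (le_max_right _ _).trans hN₀
  have hNR : (16 : ℝ) ≤ N := by exact_mod_cast h16
  refine ⟨N, hKN, 1 / (8 * (N : ℝ) ^ 2), by positivity, fun α hα => ?_⟩
  -- floor values in the residue class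
  have hfloor : ∀ t < M, om α 0 (1 / 2) (b + q * t) =
      ((A * t + c) * (q * (A * t + c) + 2)).primeFactors.card := by
    intro t ht
    unfold om
    set n := b + q * t with hn
    set u := A * t + c with hu
    have hAn : A * n = 1 + q * u := by
      rw [hn, hu, mul_add, hbc]; ring
    have hAnR : (A : ℝ) * n = 1 + q * u := by exact_mod_cast hAn
    have hnN : n ≤ N := by
      rw [hn, hN]
      exact Nat.add_le_add_left (Nat.mul_le_mul_left _ ht.le) _
    have hnNR : (n : ℝ) ≤ N := by exact_mod_cast hnN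
    have hqR0 : (q : ℝ) ≠ 0 := by positivity
    have hval : (A : ℝ) ^ 2 / 4 ^ e * (n : ℝ) ^ 2 = (u * (q * u + 2) : ℕ) + 1 / q := by
      have h1 : (A : ℝ) ^ 2 / 4 ^ e * (n : ℝ) ^ 2 = (A * n) ^ 2 / q := by
        rw [hq]; push_cast; ring
      rw [h1, hAnR]
      push_cast
      field_simp
      ring
    have hdelta : |(α - (A : ℝ) ^ 2 / 4 ^ e) * (n : ℝ) ^ 2| < 1 / 8 := by
      rw [abs_mul, abs_of_nonneg (by positivity : (0 : ℝ) ≤ (n : ℝ) ^ 2)]
      have h2 : (n : ℝ) ^ 2 ≤ (N : ℝ) ^ 2 := by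
        have : (0 : ℝ) ≤ n := by positivity
        nlinarith
      have h3 : |α - (A : ℝ) ^ 2 / 4 ^ e| * (n : ℝ) ^ 2 ≤
          |α - (A : ℝ) ^ 2 / 4 ^ e| * (N : ℝ) ^ 2 := mul_le_mul_of_nonneg_left h2 (abs_nonneg _)
      have h4 : |α - (A : ℝ) ^ 2 / 4 ^ e| * (N : ℝ) ^ 2 < 1 / (8 * (N : ℝ) ^ 2) * (N : ℝ) ^ 2 :=
        mul_lt_mul_of_pos_right hα (by positivity)
      have h5 : 1 / (8 * (N : ℝ) ^ 2) * (N : ℝ) ^ 2 = 1 / 8 := by
        have : (N : ℝ) ≠ 0 := by positivity
        field_simp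
      linarith
    have hfl : ⌊α * (n : ℝ) ^ 2 + 0 * n + 1 / 2⌋ = ((u * (q * u + 2) : ℕ) : ℤ) := by
      rw [Int.floor_eq_iff]
      have h6 : α * (n : ℝ) ^ 2 = (A : ℝ) ^ 2 / 4 ^ e * (n : ℝ) ^ 2 +
          (α - (A : ℝ) ^ 2 / 4 ^ e) * (n : ℝ) ^ 2 := by ring
      rw [h6, hval]
      have h7 := abs_lt.1 hdelta
      have h8 : (1 : ℝ) / q ≤ 1 / 4 := one_div_le_one_div_of_le (by norm_num) hqR
      have h9 : (0 : ℝ) < 1 / q := by positivity
      rw [Int.cast_natCast]
      constructor <;> linarith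
    rw [hfl, Int.natAbs_natCast]
  have hLL : 0 < Real.log (Real.log N) := by
    refine Real.log_pos ?_
    rw [Real.lt_log_iff_exp_lt (by linarith)]
    have := Real.exp_one_lt_d9
    linarith
  have hsq : 0 < Real.sqrt (Real.log (Real.log N)) := Real.sqrt_pos.2 hLL
  set G := (Finset.range M).filter (fun t =>
        Real.log (Real.log N) + T * Real.sqrt (Real.log (Real.log N)) <
          (((A * t + c) * (q * (A * t + c) + 2)).primeFactors.card : ℝ)) with hG
  -- the small values avoid the image of `G`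
  have hcard : ((Finset.Icc 1 N).filter (fun n => XN α 0 (1 / 2) N n ≤ T)).card + G.card ≤ N := by
    have hinj : Set.InjOn (fun t : ℕ => b + q * t) (G : Set ℕ) := by
      intro x _ y _ hxy
      have h1 : q * x = q * y := by
        have : b + q * x = b + q * y := hxy
        omega
      exact Nat.eq_of_mul_eq_mul_left hq0 h1
    rw [← Finset.card_image_of_injOn hinj, ← Finset.card_union_of_disjoint]
    · have hsub : ((Finset.Icc 1 N).filter (fun n => XN α 0 (1 / 2) N n ≤ T)) ∪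
          G.image (fun t : ℕ => b + q * t) ⊆ Finset.Icc 1 N := by
        refine Finset.union_subset (Finset.filter_subset _ _) ?_
        intro n hn
        rw [Finset.mem_image] at hn
        obtain ⟨t, ht, rfl⟩ := hn
        rw [hG, Finset.mem_filter, Finset.mem_range] at ht
        rw [Finset.mem_Icc]
        constructor
        · have : 1 ≤ b := by
            rcases Nat.eq_zero_or_pos b with h0 | h0
            · rw [h0, mul_zero] at hbc; omega
            · exact h0
          omega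
        · rw [hN]
          exact Nat.add_le_add_left (Nat.mul_le_mul_left _ ht.1.le) _
      have := Finset.card_le_card hsub
      rwa [Nat.card_Icc, Nat.add_sub_cancel] at this
    · rw [Finset.disjoint_left]
      intro n hn1 hn2
      rw [Finset.mem_filter] at hn1
      rw [Finset.mem_image] at hn2
      obtain ⟨t, ht, rfl⟩ := hn2
      rw [hG, Finset.mem_filter, Finset.mem_range] at ht
      have h1 := hn1.2
      unfold XN at h1
      rw [hfloor t ht.1, div_le_iff₀ hsq] at h1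
      linarith [ht.2]
  have hcardR : (((Finset.Icc 1 N).filter (fun n => XN α 0 (1 / 2) N n ≤ T)).card : ℝ) +
      G.card ≤ N := by exact_mod_cast hcard
  have hNpos : (0 : ℝ) < N := by linarith
  have hGN : 1 / (2 * q) * (N : ℝ) ≤ G.card := by
    have h1 : 1 / (2 * q) * (N : ℝ) ≤ 1 / (2 * q) * (3 / 2 * (q * M)) :=
      mul_le_mul_of_nonneg_left hNM (by positivity)
    have h2 : 1 / (2 * (q : ℝ)) * (3 / 2 * (q * M)) = 3 / 4 * M := by
      have : (q : ℝ) ≠ 0 := by positivity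
      field_simp
      ring
    linarith
  have hF : distX α 0 (1 / 2) N T ≤ 1 - 1 / (2 * q) := by
    unfold distX
    rw [div_le_iff₀ hNpos]
    nlinarith
  have h1 := le_dK α 0 (1 / 2) N T
  have h2 : cdf (gaussianReal 0 1) T - distX α 0 (1 / 2) N T ≤
      |distX α 0 (1 / 2) N T - cdf (gaussianReal 0 1) T| := by
    rw [abs_sub_comm]; exact le_abs_self _
  have h3 := hN₁ N hN1N
  have h4 : (1 : ℝ) / (2 * q) = 1 / (4 * q) + 1 / (4 * q) := by
    have : (q : ℝ) ≠ 0 := by positivity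
    field_simp
    ring
  linarith

lemma exists_near (x : ℝ) (hx : 0 < x) (ε : ℝ) (hε : 0 < ε) :
    ∃ A e : ℕ, Odd A ∧ 1 ≤ e ∧ |x - (A : ℝ) ^ 2 / 4 ^ e| < ε := by
  -- square roots: approximate `√x` by an odd multiple of `2 ^ (-e)`
  have hs : 0 < Real.sqrt x := Real.sqrt_pos.2 hx
  obtain ⟨e, he⟩ : ∃ e : ℕ, (4 * (2 * Real.sqrt x + 2) / ε) < (2 : ℝ) ^ e ∧ 1 ≤ e := by
    obtain ⟨e, he⟩ := pow_unbounded_of_one_lt (4 * (2 * Real.sqrt x + 2) / ε)
      (by norm_num : (1 : ℝ) < 2)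
    refine ⟨e + 1, ?_, by omega⟩
    rw [pow_succ]
    have : (0 : ℝ) < 2 ^ e := by positivity
    linarith
  obtain ⟨he, he1⟩ := he
  set k := ⌊Real.sqrt x * 2 ^ e / 2⌋₊ with hk
  have h2e : (0 : ℝ) < 2 ^ e := by positivity
  have hk1 : (k : ℝ) ≤ Real.sqrt x * 2 ^ e / 2 := Nat.floor_le (by positivity)
  have hk2 : Real.sqrt x * 2 ^ e / 2 < k + 1 := Nat.lt_floor_add_one _
  refine ⟨2 * k + 1, e, ⟨k, rfl⟩, he1, ?_⟩
  set a : ℝ := ((2 * k + 1 : ℕ) : ℝ) / 2 ^ e with ha
  have ha1 : |Real.sqrt x - a| ≤ 1 / 2 ^ e := by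
    rw [ha, abs_le]
    have h3 : Real.sqrt x - ((2 * k + 1 : ℕ) : ℝ) / 2 ^ e =
        (Real.sqrt x * 2 ^ e - (2 * k + 1)) / 2 ^ e := by
      push_cast; field_simp
    rw [h3]
    constructor
    · rw [neg_div', le_div_iff₀ h2e, div_mul_cancel₀ _ h2e.ne']
      linarith
    · rw [div_le_div_iff_of_pos_right h2e]
      linarith
  have h4 : ((2 * k + 1 : ℕ) : ℝ) ^ 2 / 4 ^ e = a ^ 2 := by
    rw [ha, div_pow, ← pow_mul, mul_comm e 2, pow_mul]
    norm_num
  have h5 : x = Real.sqrt x ^ 2 := (Real.sq_sqrt hx.le).symm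
  have h6 : |x - a ^ 2| = |Real.sqrt x - a| * |Real.sqrt x + a| := by
    rw [← abs_mul]
    congr 1
    rw [h5]
    rw [Real.sqrt_sq hs.le]
    ring
  rw [h4, h6]
  have h7 : (1 : ℝ) / 2 ^ e ≤ 1 := by
    rw [div_le_one h2e]
    exact one_le_pow₀ (by norm_num)
  have h8 : |Real.sqrt x + a| ≤ 2 * Real.sqrt x + 2 := by
    have h9 := abs_le.1 ha1
    rw [abs_le]
    constructor <;> linarith
  have h10 : |Real.sqrt x - a| * |Real.sqrt x + a| ≤ 1 / 2 ^ e * (2 * Real.sqrt x + 2) :=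
    mul_le_mul ha1 h8 (abs_nonneg _) (by positivity)
  refine h10.trans_lt ?_
  rw [div_lt_iff₀ hε] at he
  rw [one_div, inv_mul_lt_iff₀ h2e]
  nlinarith [mul_pos h2e hε]

/-- For every sequence `η` tending to zero (in particular for every decreasing one) there is an
admissible triple `(α, β, γ)` for which the Kolmogorov distance between `X_N` and the standard
normal distribution is not `O(η_N)`. So no single rate serves all admissible triples. -/
theorem result :
    ∀ η : ℕ → ℝ, Tendsto η atTop (𝓝 0) →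
      ∃ α β γ : ℝ, Admissible α β γ ∧ ¬ ((fun N : ℕ => dK α β γ N) =O[atTop] η) := by
  intro η hη
  set W : ℕ → Set ℝ := fun K => {α : ℝ | ∃ N : ℕ, K ≤ N ∧ K * |η N| < dK α 0 (1 / 2) N} with hW
  have hres : ∀ K : ℕ, (interior (W K) ∪ Set.Iio 0) ∈ residual ℝ := by
    intro K
    refine residual_of_dense_open (isOpen_interior.union isOpen_Iio) ?_
    rw [Metric.dense_iff]
    intro x r hr
    rcases lt_or_ge x 0 with h0 | h0
    · exact ⟨x, Metric.mem_ball_self hr, Or.inr h0⟩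
    · obtain ⟨A, e, hA, he, h1⟩ := exists_near (x + r / 2) (by linarith) (r / 2) (by linarith)
      refine ⟨(A : ℝ) ^ 2 / 4 ^ e, ?_, Or.inl ?_⟩
      · rw [Metric.mem_ball, Real.dist_eq]
        have h2 := abs_lt.1 h1
        rw [abs_lt]
        constructor <;> linarith
      · obtain ⟨N, hKN, ε, hε, h3⟩ := near_point η hη A e K hA he
        rw [mem_interior_iff_mem_nhds]
        refine Filter.mem_of_superset (Metric.ball_mem_nhds _ hε) ?_
        intro α hα
        rw [Metric.mem_ball, Real.dist_eq] at hα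
        exact ⟨N, hKN, h3 α hα⟩
  have hall : ((⋂ K : ℕ, (interior (W K) ∪ Set.Iio 0)) ∩ {x : ℝ | Irrational x}) ∈ residual ℝ :=
    Filter.inter_mem (countable_iInter_mem.2 hres) eventually_residual_irrational
  obtain ⟨α, hα0, hα⟩ := (dense_of_mem_residual hall).exists_mem_open isOpen_Ioi
    (⟨1, by norm_num⟩ : (Set.Ioi (0 : ℝ)).Nonempty)
  obtain ⟨hα1, hα2⟩ := hα0
  have hαpos : 0 < α := hα
  refine ⟨α, 0, 1 / 2, ⟨hαpos, by nlinarith, Or.inl hα2⟩, ?_⟩
  intro hO
  obtain ⟨C, hC⟩ := hO.bound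
  obtain ⟨N₀, hN₀⟩ := eventually_atTop.1 hC
  set K : ℕ := max N₀ ⌈C⌉₊ with hK
  have h1 := Set.mem_iInter.1 hα1 K
  rcases h1 with h1 | h1
  · obtain ⟨N, hKN, h2⟩ := interior_subset h1
    have h3 := hN₀ N ((le_max_left _ _).trans hKN)
    rw [Real.norm_eq_abs, Real.norm_eq_abs] at h3
    have h4 : C ≤ K := (Nat.le_ceil C).trans (by exact_mod_cast le_max_right _ _)
    have h5 : C * |η N| ≤ K * |η N| := mul_le_mul_of_nonneg_right h4 (abs_nonneg _)
    have h6 := le_abs_self (dK α 0 (1 / 2) N)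
    linarith
  · exact absurd h1 (not_lt.2 hαpos.le)

end Pool.Agent.Results.MP_02e1b1_nt.NoUniformRate
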